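import Pool.Agent.Helper41.Cluster4.Main

namespace Pool.Agent.Results.MP_c45da2_co.ExactFour

open Pool.Agent.Helper65.Delone

/-- The sharp value in dimension four: `C(4) = 1152`. For every Delaunay set of type `(r, R)` in
four-dimensional Euclidean space with mutually congruent `2R`-clusters the symmetry groups of the
`2R`-clusters are finite, and the greatest order that occurs is `1152`. -/
theorem result :
    (∀ (X : Set (EuclideanSpace ℝ (Fin 4))) (r R : ℝ), IsDelaunay X r R →
      MutuallyCongruent X (2 * R) → ∀ x ∈ X, Finite (clusterGroup X x (2 * R))) ∧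
    IsGreatest {n : ℕ | ∃ (X : Set (EuclideanSpace ℝ (Fin 4))) (r R : ℝ)
      (x : EuclideanSpace ℝ (Fin 4)), IsDelaunay X r R ∧ MutuallyCongruent X (2 * R) ∧ x ∈ X ∧
        n = Nat.card (clusterGroup X x (2 * R))} 1152 :=
  Pool.Agent.Helper41.Cluster4.exact

end Pool.Agent.Results.MP_c45da2_co.ExactFour
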