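import Pool.Agent.Helper39.DL.Fin
import Pool.Agent.Helper39.DL.Stmt

namespace Pool.Agent.Results.MP_c45da2_co.SingleExponential

open Pool.Agent.Helper65.Delone Pool.Agent.Helper39.DL

/-- In every dimension `d` the symmetry group of the `2R`-clusters of a Delaunay set of type
`(r, R)` with mutually congruent `2R`-clusters is finite of order at most
`9 ^ (d ^ 2) * (2457601 * (d + 1) ^ 3) ^ d`, its commutative subgroups have order at most
`(2457601 * (d + 1) ^ 3) ^ d`, and only its identity moves every point `y` by at most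
`|y - x| / (1228800 * (d + 1) ^ 3)`. -/
theorem result (d : ℕ) (X : Set (EuclideanSpace ℝ (Fin d))) (r R : ℝ) (h : IsDelaunay X r R)
    (hc : MutuallyCongruent X (2 * R)) (x : EuclideanSpace ℝ (Fin d)) (hx : x ∈ X) :
    Finite (clusterGroup X x (2 * R)) ∧
      Nat.card (clusterGroup X x (2 * R)) ≤ 9 ^ (d ^ 2) * (2457601 * (d + 1) ^ 3) ^ d ∧
      CommutativeSubgroupsLE (clusterGroup X x (2 * R)) ((2457601 * (d + 1) ^ 3) ^ d) ∧
      NoSmallElement (clusterGroup X x (2 * R)) x (1 / (1228800 * (d + 1) ^ 3)) := by
  classical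
  have hR : 0 < R := h.r_pos.trans_le h.r_le
  have hD : 0 < 2 * r := by linarith [h.r_pos]
  have hfr : Module.finrank ℝ (EuclideanSpace ℝ (Fin d)) = d := by simp
  have hmain : Finite (clusterGroup X x (2 * R)) ∧
      Nat.card (clusterGroup X x (2 * R)) ≤ 9 ^ (d ^ 2) * (2457601 * (d + 1) ^ 3) ^ d := by
    apply finite_of_bound
    intro s
    have hinj : Function.Injective (fun g : clusterGroup X x (2 * R) => lin g.1 x x g.2.1) := by
      intro a b hab
      exact Subtype.ext (lin_injective a.2.1 b.2.1 hab)
    have h2 := Pool.Agent.Helper39.DL.card_sym hD hR h.sepDense hc.iso hx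
      (s.image (fun g : clusterGroup X x (2 * R) => lin g.1 x x g.2.1)) (by
        intro A hA
        rw [Finset.mem_image] at hA
        obtain ⟨g, -, rfl⟩ := hA
        exact lin_iso g.2.1 g.2.2)
    rw [Finset.card_image_of_injective _ hinj, hfr] at h2
    exact h2
  refine ⟨hmain.1, hmain.2, ?_, ?_⟩
  · intro H hH hcomm
    apply (finite_of_bound _).2
    intro s
    have hfix : ∀ g : H, g.1 x = x := fun g => (hH g.2).1
    have hinj : Function.Injective (fun g : H => lin g.1 x x (hfix g)) := by
      intro a b hab
      exact Subtype.ext (lin_injective (hfix a) (hfix b) hab)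
    have h2 := Pool.Agent.Helper39.DL.card_comm hD hR h.sepDense hc.iso hx
      (s.image (fun g : H => lin g.1 x x (hfix g))) (by
        intro A hA
        rw [Finset.mem_image] at hA
        obtain ⟨g, -, rfl⟩ := hA
        exact lin_iso (hfix g) (hH g.2).2) (by
        intro A hA B hB
        rw [Finset.mem_image] at hA hB
        obtain ⟨g, -, rfl⟩ := hA
        obtain ⟨k, -, rfl⟩ := hB
        have hgk : g.1 * k.1 = k.1 * g.1 := hcomm g.1 g.2 k.1 k.2
        ext1 v
        change lin g.1 x x (hfix g) (lin k.1 x x (hfix k) v) =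
          lin k.1 x x (hfix k) (lin g.1 x x (hfix g) v)
        rw [lin_apply, lin_apply, lin_apply, lin_apply, add_sub_cancel, add_sub_cancel]
        have h3 : (g.1 * k.1) (x + v) = (k.1 * g.1) (x + v) := by rw [hgk]
        have h4 : g.1 (k.1 (x + v)) = k.1 (g.1 (x + v)) := h3
        rw [h4])
    rw [Finset.card_image_of_injective _ hinj, hfr] at h2
    exact h2
  · intro g hg hs
    have h1 := Pool.Agent.Helper39.DL.symGroup_near hD hR h.sepDense hc.iso hx
      (lin g x x hg.1) (lin_iso hg.1 hg.2) (by
        intro v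
        rw [hfr, lin_apply]
        have h3 := hs (x + v)
        rw [dist_eq_norm, dist_eq_norm, add_sub_cancel_left] at h3
        have e1 : g (x + v) - x - v = g (x + v) - (x + v) := by abel
        rw [e1]
        exact h3)
    exact lin_one hg.1 h1

end Pool.Agent.Results.MP_c45da2_co.SingleExponential
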