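import Pool.Agent.Helper65.Delone.Main

namespace Pool.Agent.Results.MP_c45da2_co.SmallSymmetries

open Pool.Agent.Helper65.Delone

/-- In every dimension: a non-identity symmetry of a `2R`-cluster that moves every point by at
most one eightieth of its distance to the centre fixes an at least three-dimensional affine
subspace through the centre. -/
theorem result (d : ℕ) (X : Set (EuclideanSpace ℝ (Fin d))) (r R : ℝ) (h : IsDelaunay X r R)
    (hc : MutuallyCongruent X (2 * R)) (x : EuclideanSpace ℝ (Fin d)) (hx : x ∈ X)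
    (g : EuclideanSpace ℝ (Fin d) ≃ᵢ EuclideanSpace ℝ (Fin d))
    (hg : g ∈ clusterGroup X x (2 * R)) (h1 : g ≠ 1)
    (hs : ∀ y, dist (g y) y ≤ dist y x / 80) :
    ∃ V : Submodule ℝ (EuclideanSpace ℝ (Fin d)), 3 ≤ Module.finrank ℝ V ∧
      ∀ v ∈ V, g (x + v) = x + v :=
  ⟨fixSpace (lin g x x hg.1), three_le h hc hx hg h1 hs, fun _ hv => mem_fixSpace_lin hg.1 hv⟩

end Pool.Agent.Results.MP_c45da2_co.SmallSymmetries
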